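import Pool.Agent.N352.PF.Cnt

/-!
Project PF (helper783, helper352), part CL (helper364): the number of integers of `F` in a residue
class modulo an integer, lower bound.
-/

set_option autoImplicit false

namespace Pool.Agent.N364.PF

open NumberField Pool.Agent.N352.PF

theorem bal_fin (F : Type) [Field F] [NumberField F] (T : ℕ) : (Bal F T).Finite := by
  have h := NumberField.Embeddings.finite_of_norm_le F ℂ (T : ℝ)
  exact (h.preimage (RingOfIntegers.coe_injective.injOn)).subset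
    fun x hx => ⟨x.isIntegral_coe, hx⟩

theorem cl : S_CL := by
  intro F _ _
  have hcι : Fintype.card (Module.Free.ChooseBasisIndex ℤ (𝓞 F)) = dg F := by
    show _ = Module.finrank ℚ F
    rw [← RingOfIntegers.rank F]
    exact (Module.finrank_eq_card_chooseBasisIndex ℤ (𝓞 F)).symm
  have hd : 1 ≤ dg F := Module.finrank_pos
  -- a bound of the basis
  obtain ⟨C1, hC1, hb⟩ : ∃ C1 : ℕ, 1 ≤ C1 ∧ ∀ (σ : F →+* ℂ)
      (i : Module.Free.ChooseBasisIndex ℤ (𝓞 F)),
      ‖σ ((RingOfIntegers.basis F i : 𝓞 F) : F)‖ ≤ C1 := by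
    obtain ⟨n, hn⟩ := exists_nat_gt (∑ σ : F →+* ℂ,
      ∑ i : Module.Free.ChooseBasisIndex ℤ (𝓞 F), ‖σ ((RingOfIntegers.basis F i : 𝓞 F) : F)‖)
    refine ⟨n + 1, by omega, fun σ i => ?_⟩
    have h1 : ‖σ ((RingOfIntegers.basis F i : 𝓞 F) : F)‖ ≤
        ∑ i : Module.Free.ChooseBasisIndex ℤ (𝓞 F), ‖σ ((RingOfIntegers.basis F i : 𝓞 F) : F)‖ :=
      Finset.single_le_sum (f := fun i => ‖σ ((RingOfIntegers.basis F i : 𝓞 F) : F)‖)
        (fun _ _ => norm_nonneg _) (Finset.mem_univ i)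
    have h2 : ∑ i : Module.Free.ChooseBasisIndex ℤ (𝓞 F),
        ‖σ ((RingOfIntegers.basis F i : 𝓞 F) : F)‖ ≤ ∑ σ : F →+* ℂ,
        ∑ i : Module.Free.ChooseBasisIndex ℤ (𝓞 F),
          ‖σ ((RingOfIntegers.basis F i : 𝓞 F) : F)‖ :=
      Finset.single_le_sum (f := fun σ : F →+* ℂ => ∑ i : Module.Free.ChooseBasisIndex ℤ (𝓞 F),
        ‖σ ((RingOfIntegers.basis F i : 𝓞 F) : F)‖)
        (fun _ _ => Finset.sum_nonneg fun _ _ => norm_nonneg _) (Finset.mem_univ σ)
    push_cast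
    linarith
  have hD : 1 ≤ C1 * dg F := Nat.mul_pos hC1 hd
  refine ⟨(2 * (C1 * dg F)) ^ dg F, Nat.one_le_pow _ _ (by omega), ?_⟩
  intro T W A hW hT
  obtain ⟨m, hm⟩ : ∃ m, m = T / (C1 * dg F * W) := ⟨_, rfl⟩
  have hDW : 0 < C1 * dg F * W := Nat.mul_pos hD hW
  have hDT : C1 * dg F * W ≤ T := by
    refine le_trans ?_ hT
    have h1 : C1 * dg F ≤ (2 * (C1 * dg F)) ^ dg F := by
      calc C1 * dg F ≤ 2 * (C1 * dg F) := by omega
        _ = (2 * (C1 * dg F)) ^ 1 := (pow_one _).symm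
        _ ≤ (2 * (C1 * dg F)) ^ dg F := Nat.pow_le_pow_right (by omega) hd
    exact Nat.mul_le_mul_right _ h1
  have hm1 : 1 ≤ m := by
    rw [hm]
    exact Nat.div_pos hDT hDW
  have hmT : C1 * dg F * W * m ≤ T := by
    rw [hm]
    exact Nat.mul_div_le _ _
  have hTm : T < C1 * dg F * W * m + C1 * dg F * W := by
    have h1 := Nat.div_add_mod T (C1 * dg F * W)
    have h2 := Nat.mod_lt T hDW
    rw [← hm] at h1
    omega
  -- the elements
  obtain ⟨a, ha⟩ : ∃ a : Module.Free.ChooseBasisIndex ℤ (𝓞 F) → ℤ,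
    a = fun i => (RingOfIntegers.basis F).repr A i := ⟨_, rfl⟩
  have hA : A = ∑ i, a i • RingOfIntegers.basis F i := by
    rw [ha]
    exact ((RingOfIntegers.basis F).sum_repr A).symm
  obtain ⟨c, hc⟩ : ∃ c : (Module.Free.ChooseBasisIndex ℤ (𝓞 F) → Fin m) →
      Module.Free.ChooseBasisIndex ℤ (𝓞 F) → ℤ,
    c = fun k i => a i % W + W * ((k i : ℕ) : ℤ) := ⟨_, rfl⟩
  have hWi : (0 : ℤ) < W := by exact_mod_cast hW
  have hc0 : ∀ k i, 0 ≤ c k i ∧ c k i ≤ (W * m : ℕ) := by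
    intro k i
    rw [hc]
    have h1 := Int.emod_nonneg (a i) hWi.ne'
    have h2 := Int.emod_lt_of_pos (a i) hWi
    have h3 : ((k i : ℕ) : ℤ) + 1 ≤ m := by exact_mod_cast (k i).2
    have h4 : (0 : ℤ) ≤ ((k i : ℕ) : ℤ) := by positivity
    constructor
    · show 0 ≤ a i % W + W * ((k i : ℕ) : ℤ)
      positivity
    · show a i % W + W * ((k i : ℕ) : ℤ) ≤ (W * m : ℕ)
      push_cast
      nlinarith
  have hinj : Function.Injective
      (fun k => ∑ i, c k i • RingOfIntegers.basis F i : (_ → Fin m) → 𝓞 F) := by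
    intro k k' h
    have h1 : (RingOfIntegers.basis F).repr (∑ i, c k i • RingOfIntegers.basis F i) =
        (RingOfIntegers.basis F).repr (∑ i, c k' i • RingOfIntegers.basis F i) := congrArg _ h
    funext i
    have h2 := DFunLike.congr_fun h1 i
    rw [Module.Basis.repr_sum_self, Module.Basis.repr_sum_self] at h2
    rw [hc] at h2
    have h3 : (W : ℤ) * ((k i : ℕ) : ℤ) = W * ((k' i : ℕ) : ℤ) := add_left_cancel h2
    have h4 := mul_left_cancel₀ hWi.ne' h3
    exact Fin.ext (by exact_mod_cast h4)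
  have hmem : ∀ k, (∑ i, c k i • RingOfIntegers.basis F i : 𝓞 F) ∈
      {x ∈ Bal F T | (W : 𝓞 F) ∣ x - A} := by
    intro k
    refine ⟨?_, ?_⟩
    · intro σ
      have h1 : σ ((∑ i, c k i • RingOfIntegers.basis F i : 𝓞 F) : F) =
          ∑ i, (c k i : ℂ) * σ ((RingOfIntegers.basis F i : 𝓞 F) : F) := by
        simp [map_sum]
      rw [h1]
      refine (norm_sum_le _ _).trans ?_
      have h2 : ∀ i ∈ (Finset.univ : Finset (Module.Free.ChooseBasisIndex ℤ (𝓞 F))),
          ‖(c k i : ℂ) * σ ((RingOfIntegers.basis F i : 𝓞 F) : F)‖ ≤ ((W * m : ℕ) : ℝ) * C1 := by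
        intro i _
        rw [norm_mul]
        refine mul_le_mul ?_ (hb σ i) (norm_nonneg _) (by positivity)
        have h3 : ‖(c k i : ℂ)‖ = |(c k i : ℝ)| := by
          rw [← Complex.ofReal_intCast, Complex.norm_real, Real.norm_eq_abs]
        have h4 : (0 : ℝ) ≤ (c k i : ℝ) := by exact_mod_cast (hc0 k i).1
        rw [h3, abs_of_nonneg h4]
        exact_mod_cast (hc0 k i).2
      refine (Finset.sum_le_sum h2).trans ?_
      rw [Finset.sum_const, Finset.card_univ, hcι, nsmul_eq_mul]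
      have h5 : ((C1 * dg F * W * m : ℕ) : ℝ) ≤ T := by exact_mod_cast hmT
      push_cast at h5 ⊢
      linarith
    · refine ⟨∑ i, (((k i : ℕ) : ℤ) - a i / W) • RingOfIntegers.basis F i, ?_⟩
      conv_lhs => rw [hA]
      rw [← Finset.sum_sub_distrib, Finset.mul_sum]
      refine Finset.sum_congr rfl fun i _ => ?_
      rw [← sub_smul]
      have h1 : c k i - a i = W * (((k i : ℕ) : ℤ) - a i / W) := by
        rw [hc]
        have h2 := Int.emod_add_mul_ediv (a i) W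
        show a i % W + W * ((k i : ℕ) : ℤ) - a i = W * (((k i : ℕ) : ℤ) - a i / W)
        linear_combination h2
      rw [h1, mul_smul]
      simp
  have hfin : ({x ∈ Bal F T | (W : 𝓞 F) ∣ x - A}).Finite :=
    (bal_fin F T).subset fun x hx => hx.1
  have hcard : m ^ dg F ≤ ({x ∈ Bal F T | (W : 𝓞 F) ∣ x - A}).ncard := by
    have h1 : (Set.range (fun k => ∑ i, c k i • RingOfIntegers.basis F i :
        (_ → Fin m) → 𝓞 F)).ncard = m ^ dg F := by
      rw [← Set.image_univ, Set.ncard_image_of_injective _ hinj, Set.ncard_univ,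
        Nat.card_eq_fintype_card, Fintype.card_fun, Fintype.card_fin, hcι]
    rw [← h1]
    refine Set.ncard_le_ncard ?_ hfin
    rintro _ ⟨k, rfl⟩
    exact hmem k
  have hT2 : T ≤ 2 * (C1 * dg F) * m * W := by
    have h1 : C1 * dg F * W ≤ C1 * dg F * W * m := Nat.le_mul_of_pos_right _ hm1
    have h2 : 2 * (C1 * dg F) * m * W = C1 * dg F * W * m + C1 * dg F * W * m := by ring
    omega
  calc T ^ dg F ≤ (2 * (C1 * dg F) * m * W) ^ dg F := Nat.pow_le_pow_left hT2 _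
    _ = (2 * (C1 * dg F)) ^ dg F * m ^ dg F * W ^ dg F := by rw [mul_pow, mul_pow]
    _ ≤ (2 * (C1 * dg F)) ^ dg F * ({x ∈ Bal F T | (W : 𝓞 F) ∣ x - A}).ncard * W ^ dg F :=
        Nat.mul_le_mul_right _ (Nat.mul_le_mul_left _ hcard)

end Pool.Agent.N364.PF
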